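import Pool.Agent.Helper17.QD.Glue

/-!
# Project QD, glue, module CCJ: complex conjugation and the pressure distance
-/

set_option autoImplicit false

open Filter Topology Matrix Set Metric MeasureTheory
open scoped ComplexConjugate ComplexOrder ENNReal

namespace Pool.Agent.Helper40.QL

open Pool.Agent.Helper17.QD Pool.Agent.Helper35.PM
open Pool.Agent.Helper68.QC (nq Bel InvB Intw)
open Pool.Agent.Helper20.QD (Fuch cj IsSU D DD SS dz dzb mob den)

/-- the matrix of the complex conjugate representation -/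
private theorem cc_coe {Γ : Type} [Group Γ] (ρ : Γ →* SL) (γ : Γ) :
    (cc ρ γ : Mat) = (starRingEnd ℂ).mapMatrix (ρ γ : Mat) := rfl

private theorem cc_apply {Γ : Type} [Group Γ] (ρ : Γ →* SL) (γ : Γ) (i j : Fin 2) :
    (cc ρ γ : Mat) i j = conj ((ρ γ : Mat) i j) := rfl

private theorem sim_cc {Γ : Type} [Group Γ] (ρ σ : Γ →* SL) (h : Sim ρ σ) :
    Sim (cc ρ) (cc σ) := by
  obtain ⟨B, hB⟩ := h
  refine ⟨Matrix.SpecialLinearGroup.map (starRingEnd ℂ) B, fun γ => ?_⟩
  have h1 : ((Matrix.SpecialLinearGroup.map (starRingEnd ℂ) B * cc ρ γ *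
      (Matrix.SpecialLinearGroup.map (starRingEnd ℂ) B)⁻¹ : SL) : Mat)
      = (starRingEnd ℂ).mapMatrix ((B * ρ γ * B⁻¹ : SL) : Mat) := by
    have h2 : Matrix.SpecialLinearGroup.map (starRingEnd ℂ) B * cc ρ γ *
        (Matrix.SpecialLinearGroup.map (starRingEnd ℂ) B)⁻¹
        = Matrix.SpecialLinearGroup.map (starRingEnd ℂ) (B * ρ γ * B⁻¹) := by
      rw [map_mul, map_mul, map_inv]
      rfl
    rw [h2]
    rfl
  rw [h1, cc_coe]
  rcases hB γ with h | h
  · left
    rw [h]
  · right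
    rw [h, map_neg]

theorem hCCJ (hOPR : StOPR) (hIQC : StIQC) (hNMC : StNMC) : StCCJ := by
  intro g _ U hU
  refine hOPR (SurfaceGroup g) cc (hIQC _) (hNMC _).1 (hNMC _).2 sim_cc ?_ U hU
  intro c a b hc γ i j
  have h : (fun t : ℝ => (cc (c t) γ : Mat) i j)
      = fun t => Complex.conjCLE ((c t γ : Mat) i j) := rfl
  rw [h]
  exact Complex.conjCLE.contDiff.comp_contDiffOn (hc γ i j)

end Pool.Agent.Helper40.QL
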